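import Pool.Agent.Helper95.HV.Stmts
import Pool.Agent.Helper51.LN.VID

/-!
# Row DBI, part 1: pairs of electrons
-/

set_option autoImplicit false

namespace Pool.Agent.Helper58.HV

open MeasureTheory Filter Topology Pool.Agent.Helper95.PW Pool.Agent.Helper95.LN
open Pool.Agent.Helper95.HV Pool.Agent.Helper14.PW Pool.Agent.Helper51.LN

theorem pdcs {g : R3 → ℝ} (hc : HasCompactSupport g) (i : Fin 3) : HasCompactSupport (pd i g) := by
  unfold pd
  exact hc.fderiv_apply (𝕜 := ℝ) _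

/-- smooth functions with compact support are Lipschitz -/
theorem lipb {φ : R3 → ℝ} (hφ : ContDiff ℝ (⊤ : ℕ∞) φ) (hc : HasCompactSupport φ) :
    ∃ B : ℝ, 0 ≤ B ∧ ∀ x y : R3, |φ x - φ y| ≤ B * nr (x - y) := by
  have h : ∀ j : Fin 3, ∃ C, ∀ y, ‖pd j φ y‖ ≤ C := by
    intro j
    exact (poe_pd_cd hφ j).continuous.bounded_above_of_compact_support (pdcs hc j)
  choose C hC using h
  have hM : ∀ j : Fin 3, |C j| ≤ ∑ j, |C j| := fun j =>
    Finset.single_le_sum (f := fun j => |C j|) (fun j _ => abs_nonneg _) (Finset.mem_univ j)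
  have hM0 : 0 ≤ ∑ j, |C j| := Finset.sum_nonneg fun j _ => abs_nonneg _
  refine ⟨3 * ∑ j, |C j|, by positivity, fun x y => ?_⟩
  exact poe_lip (hφ.differentiable (by simp)) hM0
    (fun j z => ((hC j z).trans (le_abs_self _)).trans (hM j)) x y

theorem poea_cs {g : R3 → ℝ} (hc : HasCompactSupport g) (i : Fin 3) :
    HasCompactSupport (poea g i) := by
  have e : poea g i = fun y => pd 0 g y * pd 0 (pd i g) y + pd 1 g y * pd 1 (pd i g) y +
      pd 2 g y * pd 2 (pd i g) y := by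
    funext y
    unfold poea
    rw [Fin.sum_univ_three]
  rw [e]
  exact (((pdcs hc 0).mul_right).add ((pdcs hc 1).mul_right)).add ((pdcs hc 2).mul_right)

/-- common Lipschitz constant -/
theorem lipc {g : R3 → ℝ} (hg : ContDiff ℝ (⊤ : ℕ∞) g) (hc : HasCompactSupport g) :
    ∃ B : ℝ, 0 ≤ B ∧ ∀ (i : Fin 3) (x y : R3), |pd i g x - pd i g y| ≤ B * nr (x - y) ∧
      |poea g i x - poea g i y| ≤ B * nr (x - y) := by
  choose B1 h1 k1 using fun i : Fin 3 => lipb (poe_pd_cd hg i) (pdcs hc i)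
  choose B2 h2 k2 using fun i : Fin 3 => lipb (poea_cd hg i) (poea_cs hc i)
  have m1 : ∀ i, B1 i ≤ ∑ i, (B1 i + B2 i) := fun i =>
    (le_add_of_nonneg_right (h2 i)).trans
      (Finset.single_le_sum (f := fun i => B1 i + B2 i)
        (fun i _ => add_nonneg (h1 i) (h2 i)) (Finset.mem_univ i))
  have m2 : ∀ i, B2 i ≤ ∑ i, (B1 i + B2 i) := fun i =>
    (le_add_of_nonneg_left (h1 i)).trans
      (Finset.single_le_sum (f := fun i => B1 i + B2 i)
        (fun i _ => add_nonneg (h1 i) (h2 i)) (Finset.mem_univ i))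
  refine ⟨∑ i, (B1 i + B2 i), Finset.sum_nonneg fun i _ => add_nonneg (h1 i) (h2 i), ?_⟩
  intro i x y
  exact ⟨(k1 i x y).trans (mul_le_mul_of_nonneg_right (m1 i) (Real.sqrt_nonneg _)),
    (k2 i x y).trans (mul_le_mul_of_nonneg_right (m2 i) (Real.sqrt_nonneg _))⟩

/-- the pair term of `D2` -/
noncomputable def prt {n : ℕ} (g : R3 → ℝ) (k l : Fin n) (x : Cf n) : ℝ :=
  Tq (x k - x l) (gv g (x k) - gv g (x l)) (gv g (x k) - gv g (x l)) -
      (∑ i, (gq g (x k) i - gq g (x l) i) * (x k i - x l i)) / nr (x k - x l) ^ 3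

/-- the expression of `poeD_h` -/
noncomputable def pex {n : ℕ} (g : R3 → ℝ) (k l : Fin n) (x : Cf n) (w : ℝ) : ℝ :=
  -(((pd 0 g (x k) - pd 0 g (x l)) ^ 2 + (pd 1 g (x k) - pd 1 g (x l)) ^ 2 +
        (pd 2 g (x k) - pd 2 g (x l)) ^ 2) +
        ((x k 0 - x l 0) * (poea g 0 (x k) - poea g 0 (x l)) +
        (x k 1 - x l 1) * (poea g 1 (x k) - poea g 1 (x l)) +
        (x k 2 - x l 2) * (poea g 2 (x k) - poea g 2 (x l)))) * w ^ 3 +
      3 * ((x k 0 - x l 0) * (pd 0 g (x k) - pd 0 g (x l)) +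
        (x k 1 - x l 1) * (pd 1 g (x k) - pd 1 g (x l)) +
        (x k 2 - x l 2) * (pd 2 g (x k) - pd 2 g (x l))) ^ 2 * w ^ 5

theorem gq_eq (g : R3 → ℝ) (y : R3) (i : Fin 3) : gq g y i = poea g i y := by
  unfold gq poea
  exact Finset.sum_congr rfl fun l _ => mul_comm _ _

theorem prt_eq {n : ℕ} (g : R3 → ℝ) (k l : Fin n) (x : Cf n) :
    prt g k l x = pex g k l x (nr (x k - x l))⁻¹ := by
  unfold prt Tq pex
  simp only [gq_eq, Fin.sum_univ_three, Pi.sub_apply, div_eq_mul_inv, inv_pow]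
  unfold gv
  ring

theorem pex_alg {z0 z1 z2 d0 d1 d2 b0 b1 b2 R B w : ℝ} (hR : 0 ≤ R) (hw : 0 ≤ w)
    (hwR : w * R ≤ 1) (hB : 0 ≤ B)
    (h0 : |d0| ≤ B * R) (h1 : |d1| ≤ B * R) (h2 : |d2| ≤ B * R)
    (k0 : |b0| ≤ B * R) (k1 : |b1| ≤ B * R) (k2 : |b2| ≤ B * R)
    (a0 : |z0| ≤ R) (a1 : |z1| ≤ R) (a2 : |z2| ≤ R) :
    |-((d0 ^ 2 + d1 ^ 2 + d2 ^ 2) + (z0 * b0 + z1 * b1 + z2 * b2)) * w ^ 3 +
      3 * (z0 * d0 + z1 * d1 + z2 * d2) ^ 2 * w ^ 5| ≤ (30 * B ^ 2 + 3 * B) * w := by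
  have hp : ∀ z b : ℝ, |z| ≤ R → |b| ≤ B * R → |z * b| ≤ B * R ^ 2 := by
    intro z b hz hb
    rw [abs_mul]
    calc |z| * |b| ≤ R * (B * R) := mul_le_mul hz hb (abs_nonneg _) hR
      _ = B * R ^ 2 := by ring
  have hd : ∀ d : ℝ, |d| ≤ B * R → d ^ 2 ≤ B ^ 2 * R ^ 2 := by
    intro d h
    have := pow_le_pow_left₀ (abs_nonneg d) h 2
    rw [sq_abs] at this
    calc d ^ 2 ≤ (B * R) ^ 2 := this
      _ = _ := by ring
  have s1 : |z0 * b0 + z1 * b1 + z2 * b2| ≤ 3 * B * R ^ 2 := by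
    refine (abs_add_three _ _ _).trans ?_
    have := hp z0 b0 a0 k0
    have := hp z1 b1 a1 k1
    have := hp z2 b2 a2 k2
    linarith
  have s2 : |z0 * d0 + z1 * d1 + z2 * d2| ≤ 3 * B * R ^ 2 := by
    refine (abs_add_three _ _ _).trans ?_
    have := hp z0 d0 a0 h0
    have := hp z1 d1 a1 h1
    have := hp z2 d2 a2 h2
    linarith
  have s3 : |d0 ^ 2 + d1 ^ 2 + d2 ^ 2| ≤ 3 * B ^ 2 * R ^ 2 := by
    rw [abs_of_nonneg (by positivity)]
    have := hd d0 h0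
    have := hd d1 h1
    have := hd d2 h2
    linarith
  have s4 : (z0 * d0 + z1 * d1 + z2 * d2) ^ 2 ≤ 9 * B ^ 2 * R ^ 4 := by
    have := pow_le_pow_left₀ (abs_nonneg _) s2 2
    rw [sq_abs] at this
    calc _ ≤ (3 * B * R ^ 2) ^ 2 := this
      _ = _ := by ring
  have hA : w ^ 2 * R ^ 2 ≤ 1 := by
    have h := pow_le_pow_left₀ (mul_nonneg hw hR) hwR 2
    calc w ^ 2 * R ^ 2 = (w * R) ^ 2 := by ring
      _ ≤ 1 ^ 2 := h
      _ = 1 := one_pow 2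
  have hA0 : 0 ≤ w ^ 2 * R ^ 2 := by positivity
  have t1 : |-((d0 ^ 2 + d1 ^ 2 + d2 ^ 2) + (z0 * b0 + z1 * b1 + z2 * b2)) * w ^ 3| ≤
      (3 * B ^ 2 + 3 * B) * w := by
    rw [abs_mul, abs_neg, abs_of_nonneg (show 0 ≤ w ^ 3 by positivity)]
    calc |(d0 ^ 2 + d1 ^ 2 + d2 ^ 2) + (z0 * b0 + z1 * b1 + z2 * b2)| * w ^ 3
        ≤ (3 * B ^ 2 * R ^ 2 + 3 * B * R ^ 2) * w ^ 3 :=
          mul_le_mul_of_nonneg_right ((abs_add_le _ _).trans (add_le_add s3 s1)) (by positivity)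
      _ = (3 * B ^ 2 + 3 * B) * w * (w ^ 2 * R ^ 2) := by ring
      _ ≤ (3 * B ^ 2 + 3 * B) * w * 1 := mul_le_mul_of_nonneg_left hA (by positivity)
      _ = _ := mul_one _
  have t2 : |3 * (z0 * d0 + z1 * d1 + z2 * d2) ^ 2 * w ^ 5| ≤ 27 * B ^ 2 * w := by
    rw [abs_of_nonneg (by positivity)]
    calc 3 * (z0 * d0 + z1 * d1 + z2 * d2) ^ 2 * w ^ 5 ≤ 3 * (9 * B ^ 2 * R ^ 4) * w ^ 5 := by
          gcongr
      _ = 27 * B ^ 2 * w * (w ^ 2 * R ^ 2) ^ 2 := by ring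
      _ ≤ 27 * B ^ 2 * w * 1 := by
          refine mul_le_mul_of_nonneg_left ?_ (by positivity)
          exact pow_le_one₀ hA0 hA
      _ = _ := mul_one _
  refine (abs_add_le _ _).trans ?_
  linarith

theorem pex_bd {n : ℕ} {g : R3 → ℝ} {B : ℝ} (hB : 0 ≤ B)
    (h : ∀ (i : Fin 3) (x y : R3), |pd i g x - pd i g y| ≤ B * nr (x - y) ∧
      |poea g i x - poea g i y| ≤ B * nr (x - y)) (k l : Fin n) (x : Cf n) {w : ℝ}
    (hw : 0 ≤ w) (hwR : w * nr (x k - x l) ≤ 1) :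
    |pex g k l x w| ≤ (30 * B ^ 2 + 3 * B) * w := by
  have hz : ∀ i : Fin 3, |x k i - x l i| ≤ nr (x k - x l) := fun i =>
    poe_abs_le_nr (x k - x l) i
  exact pex_alg (Real.sqrt_nonneg _) hw hwR hB (h 0 _ _).1 (h 1 _ _).1 (h 2 _ _).1
    (h 0 _ _).2 (h 1 _ _).2 (h 2 _ _).2 (hz 0) (hz 1) (hz 2)

theorem poew_lim {n : ℕ} (k l : Fin n) {x : Cf n} (hx : nr (x k - x l) ≠ 0) :
    Tendsto (fun m : ℕ => poew k l (1 / ((m : ℝ) + 1)) x) atTop (𝓝 (nr (x k - x l))⁻¹) := by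
  have hpos : 0 < nr (x k - x l) := lt_of_le_of_ne (poe_nr_nonneg _) (Ne.symm hx)
  unfold poew
  refine Tendsto.inv₀ ?_ hx
  have h1 : Tendsto (fun m : ℕ => nr (x k - x l) ^ 2 + (1 / ((m : ℝ) + 1)) ^ 2) atTop
      (𝓝 (nr (x k - x l) ^ 2 + 0 ^ 2)) :=
    tendsto_const_nhds.add (tendsto_one_div_add_atTop_nhds_zero_nat.pow 2)
  have h2 := h1.sqrt
  rw [show nr (x k - x l) ^ 2 + (0 : ℝ) ^ 2 = nr (x k - x l) ^ 2 by ring,
    Real.sqrt_sq hpos.le] at h2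
  refine h2.congr fun m => ?_
  rw [poe_q_eq]

theorem poew_le {n : ℕ} (k l : Fin n) {e : ℝ} (he : 0 < e) {x : Cf n}
    (hx : nr (x k - x l) ≠ 0) : 0 ≤ poew k l e x ∧ poew k l e x ≤ 1 / nr (x k - x l) := by
  have hpos : 0 < nr (x k - x l) := lt_of_le_of_ne (poe_nr_nonneg _) (Ne.symm hx)
  refine ⟨(inv_pos.2 (Real.sqrt_pos.2 (poeq_pos k l he x))).le, ?_⟩
  unfold poew
  rw [one_div (nr (x k - x l))]
  refine inv_anti₀ hpos ?_
  refine Real.le_sqrt_of_sq_le ?_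
  rw [poe_q_eq]
  have := sq_nonneg e
  linarith

/-- the identity for one pair -/
theorem pr_main {n : ℕ} (hPAN : ST_PAN) (hSTB : ST_STB) (hINT : ST_INTM) {g : R3 → ℝ}
    (hg : ContDiff ℝ (⊤ : ℕ∞) g) (hc : HasCompactSupport g) {k l : Fin n} (hkl : k < l)
    {v : Cf n → ℝ} (hv : ContDiff ℝ (⊤ : ℕ∞) v) (hvc : HasCompactSupport v) :
    Integrable (fun x => prt g k l x * v x ^ 2) ∧
    (∫ x, 1 / nr (x k - x l) * (Pg g v x * Pg g v x)) +
        (∫ x, 1 / nr (x k - x l) * (Pg g (Pg g v) x * v x)) =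
      1 / 2 * ∫ x, prt g k l x * v x ^ 2 := by
  obtain ⟨B, hB, hL⟩ := lipc hg hc
  obtain ⟨hp, hpc⟩ := poe_sm hSTB hg hv hvc
  obtain ⟨hpp, hppc⟩ := poe_sm hSTB hg hp hpc
  have J1 := (hINT n 0 (fun _ => 0) (fun _ => 0) _ _ hp hpc hp hpc).2.1
  have J2 := (hINT n 0 (fun _ => 0) (fun _ => 0) _ _ hpp hppc hv hvc).2.1
  have J3 := (hINT n 0 (fun _ => 0) (fun _ => 0) _ _ hv hvc hv hvc).2.1
  have c1 : Continuous (fun x => Pg g v x * Pg g v x) := hp.continuous.mul hp.continuous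
  have c2 : Continuous (fun x => Pg g (Pg g v) x * v x) := hpp.continuous.mul hv.continuous
  have c3 : Continuous (fun x => v x * v x) := hv.continuous.mul hv.continuous
  have t1 := poe_lim hkl.ne c1 (poe_pi hkl c1 J1)
  have t2 := poe_lim hkl.ne c2 (poe_pi hkl c2 J2)
  have I3 := poe_pi hkl c3 J3
  have he : ∀ m : ℕ, (0 : ℝ) < 1 / ((m : ℝ) + 1) := fun m => by positivity
  have eD : ∀ (m : ℕ) (x : Cf n), poeD g (poeh g k l (1 / ((m : ℝ) + 1))) x =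
      pex g k l x (poew k l (1 / ((m : ℝ) + 1)) x) := fun m x => poeD_h hg k l (he m) x
  have pt : ∀ x : Cf n, nr (x k - x l) ≠ 0 → Tendsto (fun m : ℕ =>
      poeD g (poeh g k l (1 / ((m : ℝ) + 1))) x * v x ^ 2) atTop
      (𝓝 (prt g k l x * v x ^ 2)) := by
    intro x hx
    refine Tendsto.mul_const _ ?_
    rw [prt_eq]
    simp only [eD]
    have h3 := poew_lim k l hx
    unfold pex
    exact ((h3.pow 3).const_mul _).add ((h3.pow 5).const_mul _)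
  have hm : ∀ m : ℕ, AEStronglyMeasurable (fun x : Cf n =>
      poeD g (poeh g k l (1 / ((m : ℝ) + 1))) x * v x ^ 2) volume := fun m =>
    ((poe_Dc hg (poeh_cd hg k l (he m))).mul (hv.continuous.pow 2)).aestronglyMeasurable
  have hlim : ∀ᵐ x : Cf n, Tendsto (fun m : ℕ =>
      poeD g (poeh g k l (1 / ((m : ℝ) + 1))) x * v x ^ 2) atTop
      (𝓝 (prt g k l x * v x ^ 2)) := by
    filter_upwards [poe_null hkl.ne] with x hx using pt x hx
  have hb : ∀ (x : Cf n) (w : ℝ), nr (x k - x l) ≠ 0 → 0 ≤ w → w ≤ 1 / nr (x k - x l) →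
      ‖pex g k l x w * v x ^ 2‖ ≤ (30 * B ^ 2 + 3 * B) * (1 / nr (x k - x l) * (v x * v x)) := by
    intro x w hx hw hw1
    have hpos : 0 < nr (x k - x l) := lt_of_le_of_ne (poe_nr_nonneg _) (Ne.symm hx)
    have h1 : w * nr (x k - x l) ≤ 1 := by rwa [le_div_iff₀ hpos] at hw1
    rw [Real.norm_eq_abs, abs_mul, abs_of_nonneg (sq_nonneg (v x))]
    calc |pex g k l x w| * v x ^ 2 ≤ (30 * B ^ 2 + 3 * B) * (1 / nr (x k - x l)) * v x ^ 2 := by
          refine mul_le_mul_of_nonneg_right ((pex_bd hB hL k l x hw h1).trans ?_) (sq_nonneg _)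
          exact mul_le_mul_of_nonneg_left hw1 (by positivity)
      _ = _ := by ring
  have hint : Integrable (fun x => prt g k l x * v x ^ 2) := by
    refine (I3.const_mul (30 * B ^ 2 + 3 * B)).mono'
      (aestronglyMeasurable_of_tendsto_ae atTop hm hlim) ?_
    filter_upwards [poe_null hkl.ne] with x hx
    have hpos : 0 < nr (x k - x l) := lt_of_le_of_ne (poe_nr_nonneg _) (Ne.symm hx)
    rw [prt_eq]
    exact hb x _ hx (by positivity) (le_of_eq (one_div _).symm)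
  refine ⟨hint, ?_⟩
  have t3 : Tendsto (fun m : ℕ => ∫ x, poeD g (poeh g k l (1 / ((m : ℝ) + 1))) x * v x ^ 2) atTop
      (𝓝 (∫ x, prt g k l x * v x ^ 2)) := by
    refine tendsto_integral_of_dominated_convergence
      (fun x => (30 * B ^ 2 + 3 * B) * (1 / nr (x k - x l) * (v x * v x))) hm
      (I3.const_mul _) (fun m => ?_) hlim
    filter_upwards [poe_null hkl.ne] with x hx
    rw [eD]
    obtain ⟨w0, w1⟩ := poew_le k l (he m) hx
    exact hb x _ hx w0 w1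
  have key : ∀ m : ℕ, (∫ x, poew k l (1 / ((m : ℝ) + 1)) x * (Pg g v x * Pg g v x)) +
      (∫ x, poew k l (1 / ((m : ℝ) + 1)) x * (Pg g (Pg g v) x * v x)) =
      1 / 2 * ∫ x, poeD g (poeh g k l (1 / ((m : ℝ) + 1))) x * v x ^ 2 := by
    intro m
    have j1 := poe_id1 hPAN hg hv hvc hp hpc rfl (poew_cd k l (he m)) (poeh_cd hg k l (he m))
      (fun x => poeD_w k l (he m) x)
    have j2 := poe_id2 hPAN hg hv hvc hp rfl (poeh_cd hg k l (he m))
    have e1 : ∀ x, poew k l (1 / ((m : ℝ) + 1)) x * Pg g v x ^ 2 =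
        poew k l (1 / ((m : ℝ) + 1)) x * (Pg g v x * Pg g v x) := fun x => by ring
    simp only [e1] at j1
    linarith
  exact tendsto_nhds_unique (t1.add t2) ((t3.const_mul (1 / 2)).congr fun m => (key m).symm)

end Pool.Agent.Helper58.HV
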